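import Pool.Agent.Lib.MP_4fbe7c_an.ND.Iface
import Pool.Agent.Lib.MP_4fbe7c_an.ND.Base

/-!
# Row GRN: the divergence theorem for tangential fields
-/

set_option autoImplicit false

open Set MeasureTheory Filter Topology

namespace Pool.Agent.Lib.MP_4fbe7c_an.ND.H42

open Pool.Agent.Lib.MP_4fbe7c_an.ND

variable {p : ℕ} {Ω : Set (Eu p)} {q : Eu p → ℝ}

/-- The cut-off function. -/
noncomputable def kap (s : ℝ) : ℝ := Real.smoothTransition (2 * s - 1)

theorem kap_contDiff : ContDiff ℝ 1 kap :=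
  Real.smoothTransition.contDiff.comp (by fun_prop)

theorem kap_zero {s : ℝ} (h : s ≤ 1 / 2) : kap s = 0 :=
  Real.smoothTransition.zero_of_nonpos (by linarith)

theorem kap_one {s : ℝ} (h : 1 ≤ s) : kap s = 1 :=
  Real.smoothTransition.one_of_one_le (by linarith)

theorem kap_nonneg (s : ℝ) : 0 ≤ kap s := Real.smoothTransition.nonneg _

theorem kap_le_one (s : ℝ) : kap s ≤ 1 := Real.smoothTransition.le_one _

theorem kap_differentiable : Differentiable ℝ kap :=
  kap_contDiff.differentiable (by norm_num)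

theorem kap_deriv_continuous : Continuous (deriv kap) :=
  kap_contDiff.continuous_deriv (by norm_num)

theorem kap_deriv_low {s : ℝ} (h : s < 1 / 2) : deriv kap s = 0 := by
  have h1 : kap =ᶠ[𝓝 s] fun _ => 0 := by
    filter_upwards [Iio_mem_nhds h] with x hx
    exact kap_zero (le_of_lt hx)
  rw [h1.deriv_eq]; simp

theorem kap_deriv_high {s : ℝ} (h : 1 < s) : deriv kap s = 0 := by
  have h1 : kap =ᶠ[𝓝 s] fun _ => 1 := by
    filter_upwards [Ioi_mem_nhds h] with x hx
    exact kap_one (le_of_lt hx)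
  rw [h1.deriv_eq]; simp

theorem kap_deriv_bound : ∃ M : ℝ, 0 < M ∧ ∀ s, |deriv kap s| ≤ M := by
  obtain ⟨C, hC⟩ := (isCompact_Icc (a := (1 / 2 : ℝ)) (b := 1)).exists_bound_of_continuousOn
    kap_deriv_continuous.continuousOn
  refine ⟨max C 1, lt_max_of_lt_right one_pos, fun s => ?_⟩
  by_cases h : s < 1 / 2
  · rw [kap_deriv_low h]; simp
  by_cases h' : 1 < s
  · rw [kap_deriv_high h']; simp
  exact (hC s ⟨not_lt.1 h, not_lt.1 h'⟩).trans (le_max_left _ _)

/-- The cut-off of the domain. -/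
noncomputable def cut (q : Eu p → ℝ) (ε : ℝ) (x : Eu p) : ℝ := kap (-q x / ε)

/-- Its gradient. -/
noncomputable def cut' (q : Eu p → ℝ) (ε : ℝ) (x : Eu p) : Eu p :=
  (deriv kap (-q x / ε) * (-(1 / ε))) • gradient q x

theorem cut_continuous (hΩ : Dom Ω q) (ε : ℝ) : Continuous (cut q ε) := by
  have := hΩ.cont
  have h2 := kap_contDiff.continuous
  unfold cut
  fun_prop

theorem cut'_continuous (hΩ : Dom Ω q) (ε : ℝ) : Continuous (cut' q ε) := by
  have h1 := hΩ.cont
  have h2 := kap_deriv_continuous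
  have h3 := hΩ.continuous_gradient
  unfold cut'
  fun_prop

theorem cut_hasGradientAt (hΩ : Dom Ω q) (ε : ℝ) (x : Eu p) :
    HasGradientAt (cut q ε) (cut' q ε x) x := by
  have h1 : HasDerivAt (fun s : ℝ => kap (-s / ε)) (deriv kap (-q x / ε) * (-(1 / ε))) (q x) := by
    have h2 : HasDerivAt (fun s : ℝ => -s / ε) (-(1 / ε)) (q x) := by
      have := ((hasDerivAt_id (q x)).neg).div_const ε
      simpa [neg_div] using this
    have h3 := (kap_differentiable (-q x / ε)).hasDerivAt
    have h4 : HasDerivAt (kap ∘ fun s : ℝ => -s / ε) (deriv kap (-q x / ε) * (-(1 / ε))) (q x) :=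
      HasDerivAt.comp (h₂ := kap) (h := fun s : ℝ => -s / ε) (q x) h3 h2
    exact h4
  have h5 : HasGradientAt (fun x => (fun s : ℝ => kap (-s / ε)) (q x))
      ((deriv kap (-q x / ε) * (-(1 / ε))) • gradient q x) x :=
    HasGradientAt.comp' (φ := fun s : ℝ => kap (-s / ε)) h1 (hΩ.hasGradientAt x)
  exact h5

theorem cut_zero {ε : ℝ} (hε : 0 < ε) {x : Eu p} (hx : -(ε / 2) ≤ q x) : cut q ε x = 0 := by
  apply kap_zero
  rw [div_le_iff₀ hε]
  linarith

theorem cut'_zero {ε : ℝ} (hε : 0 < ε) {x : Eu p} (hx : -(ε / 2) < q x) : cut' q ε x = 0 := by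
  unfold cut'
  rw [kap_deriv_low, zero_mul, zero_smul]
  rw [div_lt_iff₀ hε]
  linarith

/-- The identity for the cut-off field. -/
theorem cut_identity (hdv : Dv0Statement) (hΩ : Dom Ω q) {F : Eu p → Eu p}
    {D : Eu p → Eu p →L[ℝ] Eu p} (hF : ContinuousOn F (closure Ω))
    (hD : ContinuousOn D (closure Ω)) (hd : ∀ x ∈ Ω, HasFDerivAt F (D x) x) {ε : ℝ}
    (hε : 0 < ε) :
    ∫ x in Ω, cut q ε x * tr (D x) = -∫ x in Ω, inner ℝ (cut' q ε x) (F x) := by
  classical
  set G : Eu p → Eu p := Ω.indicator (fun x => cut q ε x • F x) with hG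
  set DG : Eu p → Eu p →L[ℝ] Eu p := Ω.indicator
    (fun x => cut q ε x • D x + (innerSL ℝ (cut' q ε x)).smulRight (F x)) with hDG
  have hfar : ∀ x, x ∉ Ω → ∀ᶠ y in 𝓝 x, -(ε / 2) < q y := by
    intro x hx
    rw [hΩ.mem_iff, not_lt] at hx
    have h1 : -(ε / 2) < q x := by linarith
    exact hΩ.cont.continuousAt.eventually (lt_mem_nhds h1)
  have hGd : ∀ x, HasFDerivAt G (DG x) x := by
    intro x
    by_cases hx : x ∈ Ω
    · have h1 : HasFDerivAt (fun x => cut q ε x • F x)
          (cut q ε x • D x + (innerSL ℝ (cut' q ε x)).smulRight (F x)) x :=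
        HasFDerivAt.smul (cut_hasGradientAt hΩ ε x).hasFDerivAt (hd x hx)
      have h2 : G =ᶠ[𝓝 x] fun x => cut q ε x • F x := by
        filter_upwards [hΩ.isOpen.mem_nhds hx] with y hy
        rw [hG, indicator_of_mem hy]
      rw [hDG, indicator_of_mem hx]
      exact h1.congr_of_eventuallyEq h2
    · rw [hDG, indicator_of_notMem hx]
      have h2 : G =ᶠ[𝓝 x] fun _ => 0 := by
        filter_upwards [hfar x hx] with y hy
        by_cases hy' : y ∈ Ω
        · rw [hG, indicator_of_mem hy', cut_zero hε hy.le, zero_smul]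
        · rw [hG, indicator_of_notMem hy']
      exact (hasFDerivAt_const 0 x).congr_of_eventuallyEq h2
  have hDGc : Continuous DG := by
    rw [continuous_iff_continuousAt]
    intro x
    by_cases hx : x ∈ Ω
    · have h2 : (fun x => cut q ε x • D x + (innerSL ℝ (cut' q ε x)).smulRight (F x))
          =ᶠ[𝓝 x] DG := by
        filter_upwards [hΩ.isOpen.mem_nhds hx] with y hy
        rw [hDG, indicator_of_mem hy]
      refine ContinuousAt.congr ?_ h2
      have h3 : ContinuousAt D x := hD.continuousAt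
        (mem_of_superset (hΩ.isOpen.mem_nhds hx) subset_closure)
      have h4 : ContinuousAt F x := hF.continuousAt
        (mem_of_superset (hΩ.isOpen.mem_nhds hx) subset_closure)
      have h5 := (cut_continuous hΩ ε).continuousAt (x := x)
      have h6 := (cut'_continuous hΩ ε).continuousAt (x := x)
      refine (h5.smul h3).add ?_
      have h7 : ContinuousAt (fun x => innerSL ℝ (cut' q ε x)) x :=
        (innerSL ℝ (E := Eu p)).continuous.continuousAt.comp h6
      have h8 : Continuous (fun a : (Eu p →L[ℝ] ℝ) × Eu p => a.1.smulRight a.2) :=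
        (ContinuousLinearMap.smulRightL ℝ (Eu p) (Eu p)).isBoundedBilinearMap.continuous
      exact ContinuousAt.comp (f := fun x => (innerSL ℝ (cut' q ε x), F x)) h8.continuousAt
        (h7.prodMk h4)
    · have h2 : (fun _ => (0 : Eu p →L[ℝ] Eu p)) =ᶠ[𝓝 x] DG := by
        filter_upwards [hfar x hx] with y hy
        by_cases hy' : y ∈ Ω
        · rw [hDG, indicator_of_mem hy', cut_zero hε hy.le, cut'_zero hε hy, map_zero]
          ext v
          simp
        · rw [hDG, indicator_of_notMem hy']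
      exact continuousAt_const.congr h2
  have hGs : HasCompactSupport G := by
    refine HasCompactSupport.intro hΩ.isCompact fun x hx => ?_
    rw [hG, indicator_of_notMem (fun h => hx (subset_closure h))]
  have h0 := hdv p G DG hGd hDGc hGs
  have h1 : (fun x => tr (DG x)) =
      Ω.indicator (fun x => cut q ε x * tr (D x) + inner ℝ (cut' q ε x) (F x)) := by
    funext x
    by_cases hx : x ∈ Ω
    · rw [hDG, indicator_of_mem hx, indicator_of_mem hx, tr_add, tr_smul, tr_smulRight]
    · rw [hDG, indicator_of_notMem hx, indicator_of_notMem hx, tr_zero]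
  rw [h1, integral_indicator hΩ.measurableSet, integral_add] at h0
  · linarith
  · exact hΩ.integrableOn ((cut_continuous hΩ ε).continuousOn.mul
      (continuous_tr.comp_continuousOn hD))
  · exact hΩ.integrableOn ((cut'_continuous hΩ ε).continuousOn.inner hF)

/-- The boundary layer estimate. -/
theorem layer (hstr : StrStatement) (hΩ : Dom Ω q) {F : Eu p → Eu p}
    (hF : ContinuousOn F (closure Ω)) (hN : Neu Ω q F) :
    ∃ A : ℝ, 0 < A ∧ ∀ η : ℝ, 0 < η → ∀ᶠ ε in 𝓝[>] (0 : ℝ),
      |∫ x in Ω, inner ℝ (cut' q ε x) (F x)| ≤ A * η := by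
  obtain ⟨C, s₀, hC, hs₀, hvol⟩ := hstr p Ω q hΩ
  obtain ⟨M, hM, hMb⟩ := kap_deriv_bound
  refine ⟨2 * M * C, by positivity, fun η hη => ?_⟩
  -- the tangential condition near the boundary
  obtain ⟨δ, hδ, hδ'⟩ : ∃ δ : ℝ, 0 < δ ∧ ∀ x ∈ closure Ω, -δ < q x →
      |inner ℝ (gradient q x) (F x)| < η := by
    have hc : ContinuousOn (fun x => |inner ℝ (gradient q x) (F x)|) (closure Ω) :=
      (hΩ.continuous_gradient.continuousOn.inner hF).abs
    set K : Set (Eu p) := closure Ω ∩ {x | η ≤ |inner ℝ (gradient q x) (F x)|} with hK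
    have hKc : IsCompact K := by
      have h1 : IsClosed K := hc.preimage_isClosed_of_isClosed isClosed_closure isClosed_Ici
      exact hΩ.isCompact.of_isClosed_subset h1 inter_subset_left
    rcases K.eq_empty_or_nonempty with hKe | hKn
    · refine ⟨1, one_pos, fun x hx _ => ?_⟩
      by_contra hcon
      have : x ∈ K := ⟨hx, not_lt.1 hcon⟩
      rw [hKe] at this
      exact this
    · obtain ⟨x₀, hx₀, hmax⟩ := hKc.exists_isMaxOn hKn hΩ.cont.continuousOn
      have hneg : q x₀ < 0 := by
        have h1 := hΩ.mem_closure_iff.1 hx₀.1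
        rcases lt_or_eq_of_le h1 with h2 | h2
        · exact h2
        · exfalso
          have h3 := hN x₀ (hΩ.mem_frontier_iff.2 h2)
          have h4 : η ≤ |inner ℝ (gradient q x₀) (F x₀)| := hx₀.2
          rw [real_inner_comm, h3, abs_zero] at h4
          linarith
      refine ⟨-q x₀, by linarith, fun x hx hlt => ?_⟩
      by_contra hcon
      have h1 : x ∈ K := ⟨hx, not_lt.1 hcon⟩
      have h2 : q x ≤ q x₀ := hmax h1
      linarith
  have hev : ∀ᶠ ε in 𝓝[>] (0 : ℝ), 0 < ε ∧ ε < δ ∧ 2 * ε < s₀ := by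
    have h1 : ∀ᶠ ε in 𝓝[>] (0 : ℝ), ε ∈ Ioo 0 (min δ (s₀ / 2)) :=
      Ioo_mem_nhdsGT (lt_min hδ (by linarith))
    filter_upwards [h1] with ε hε
    refine ⟨hε.1, hε.2.trans_le (min_le_left _ _), ?_⟩
    have := hε.2.trans_le (min_le_right _ _)
    linarith
  filter_upwards [hev] with ε hε
  obtain ⟨hε0, hεδ, hεs⟩ := hε
  set S : Set (Eu p) := {x | -(2 * ε) < q x ∧ q x < 0} with hS
  have hSm : MeasurableSet S := by
    have h1 : IsOpen S := (isOpen_lt continuous_const hΩ.cont).inter
      (isOpen_lt hΩ.cont continuous_const)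
    exact h1.measurableSet
  have hSΩ : S ⊆ Ω := fun x hx => hΩ.mem_iff.2 hx.2
  have hzero : ∀ x ∈ Ω \ S, inner ℝ (cut' q ε x) (F x) = 0 := by
    intro x hx
    have h1 : q x < 0 := hΩ.mem_iff.1 hx.1
    have h2 : q x ≤ -(2 * ε) := by
      by_contra hcon
      exact hx.2 ⟨not_le.1 hcon, h1⟩
    have h3 : deriv kap (-q x / ε) = 0 := by
      apply kap_deriv_high
      rw [lt_div_iff₀ hε0]
      linarith
    unfold cut'
    rw [h3, zero_mul, zero_smul, inner_zero_left]
  have e1 : ∫ x in Ω, inner ℝ (cut' q ε x) (F x) = ∫ x in S, inner ℝ (cut' q ε x) (F x) :=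
    setIntegral_eq_of_subset_of_forall_sdiff_eq_zero hΩ.measurableSet hSΩ hzero
  rw [e1]
  have hvolS : volume.real S ≤ C * (2 * ε) := hvol (2 * ε) (by linarith) hεs
  have hb : ∀ x ∈ S, ‖(inner ℝ (cut' q ε x) (F x) : ℝ)‖ ≤ M * (1 / ε) * η := by
    intro x hx
    have hxc : x ∈ closure Ω := subset_closure (hSΩ hx)
    unfold cut'
    rw [real_inner_smul_left, norm_mul, Real.norm_eq_abs, Real.norm_eq_abs, abs_mul, abs_neg,
      abs_of_pos (one_div_pos.2 hε0)]
    by_cases h1 : -δ < q x
    · have h2 := (hδ' x hxc h1).le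
      have h3 := hMb (-q x / ε)
      gcongr
    · have h3 : deriv kap (-q x / ε) = 0 := by
        apply kap_deriv_high
        rw [lt_div_iff₀ hε0]
        linarith [not_lt.1 h1]
      rw [h3]
      simp only [abs_zero, zero_mul]
      positivity
  have hSfin : volume S < ⊤ := (measure_mono hSΩ).trans_lt hΩ.volume_lt_top
  have h2 := norm_setIntegral_le_of_norm_le_const hSfin hb
  rw [Real.norm_eq_abs] at h2
  refine h2.trans ?_
  calc M * (1 / ε) * η * volume.real S ≤ M * (1 / ε) * η * (C * (2 * ε)) := by gcongr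
    _ = 2 * M * C * η := by field_simp

/-- (GRN) The divergence theorem. -/
theorem grn_st (hDv0 : Dv0Statement) (hStr : StrStatement) : GrnStatement := by
  intro p Ω q F D hΩ hF hD hd hN
  obtain ⟨A, hA, hlay⟩ := layer hStr hΩ hF hN
  have hDtr : ContinuousOn (fun x => tr (D x)) (closure Ω) := continuous_tr.comp_continuousOn hD
  obtain ⟨B, hB, hBb⟩ := hΩ.exists_bound hDtr
  have hlim : Tendsto (fun ε : ℝ => ∫ x in Ω, cut q ε x * tr (D x)) (𝓝[>] 0)
      (𝓝 (∫ x in Ω, tr (D x))) := by
    refine tendsto_integral_filter_of_dominated_convergence (fun _ => B) ?_ ?_ ?_ ?_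
    · refine Eventually.of_forall fun ε => ?_
      exact (hΩ.integrableOn ((cut_continuous hΩ ε).continuousOn.mul hDtr)).aestronglyMeasurable
    · refine Eventually.of_forall fun ε => ?_
      rw [ae_restrict_iff' hΩ.measurableSet]
      refine Eventually.of_forall fun x hx => ?_
      have h0 : 0 ≤ cut q ε x := kap_nonneg _
      rw [norm_mul, Real.norm_eq_abs, abs_of_nonneg h0]
      have h1 := hBb x (subset_closure hx)
      have h2 : cut q ε x ≤ 1 := kap_le_one _
      have h3 : 0 ≤ ‖tr (D x)‖ := norm_nonneg _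
      nlinarith
    · exact integrableOn_const (hs := hΩ.volume_lt_top.ne)
    · rw [ae_restrict_iff' hΩ.measurableSet]
      refine Eventually.of_forall fun x hx => ?_
      refine tendsto_const_nhds.congr' ?_
      have hx0 : 0 < -q x := by have := hΩ.mem_iff.1 hx; linarith
      filter_upwards [Ioo_mem_nhdsGT hx0] with ε hε
      have : cut q ε x = 1 := by
        apply kap_one
        rw [le_div_iff₀ hε.1]
        linarith [hε.2]
      rw [this, one_mul]
  have hle : ∀ η : ℝ, 0 < η → |∫ x in Ω, tr (D x)| ≤ A * η := by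
    intro η hη
    have h1 := hlim.abs
    refine le_of_tendsto h1 ?_
    filter_upwards [hlay η hη, self_mem_nhdsWithin] with ε h2 hε
    rw [cut_identity hDv0 hΩ hF hD hd hε, abs_neg]
    exact h2
  have h0 : |∫ x in Ω, tr (D x)| ≤ 0 := by
    refine le_of_forall_pos_le_add fun η hη => ?_
    have h1 := hle (η / A) (by positivity)
    rw [mul_div_cancel₀ _ hA.ne'] at h1
    linarith
  exact abs_eq_zero.1 (le_antisymm h0 (abs_nonneg _))

end Pool.Agent.Lib.MP_4fbe7c_an.ND.H42
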